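import Pool.Agent.W769.HU.Pair

/-!
# Non-uniqueness of normalised harmonic maps of the disc with prescribed dilatation

We construct a simply connected domain (the plane minus two parallel rays), an analytic
dilatation of sup norm less than one, and two different normalised harmonic mappings of the
unit disc onto this domain with this dilatation.
-/

open Complex Set Filter Topology

namespace Pool.Agent.Results.MP_35dab7_an.NonUniqueness

open Pool.Agent.W769.HU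

/-- `f` is a solution for `(Ω, ω, w₀)`: a univalent sense-preserving harmonic mapping
`f = h + conj g` (`h`, `g` analytic) of the unit disc onto `Ω`, with dilatation
`g' / h' = ω`, with `f 0 = w₀` and with `f_z(0) = h'(0) > 0`. -/
def IsSolution (Ω : Set ℂ) (ω : ℂ → ℂ) (w₀ : ℂ) (f : ℂ → ℂ) : Prop :=
  ∃ h g : ℂ → ℂ,
    DifferentiableOn ℂ h (Metric.ball 0 1) ∧
    DifferentiableOn ℂ g (Metric.ball 0 1) ∧
    (∀ z ∈ Metric.ball (0 : ℂ) 1, f z = h z + (starRingEnd ℂ) (g z)) ∧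
    (∀ z ∈ Metric.ball (0 : ℂ) 1, ‖deriv g z‖ < ‖deriv h z‖) ∧
    (∀ z ∈ Metric.ball (0 : ℂ) 1, deriv g z = ω z * deriv h z) ∧
    Set.InjOn f (Metric.ball 0 1) ∧
    f '' Metric.ball 0 1 = Ω ∧
    f 0 = w₀ ∧
    0 < (deriv h 0).re ∧ (deriv h 0).im = 0

lemma add_one_ne {x : ℂ} (hx : 0 < x.re) : x + 1 ≠ 0 := by
  intro h
  have : (x + 1).re = 0 := by rw [h]; simp
  simp at this
  linarith

lemma norm_sub_lt_norm_add {x : ℂ} (hx : 0 < x.re) : ‖x - 1‖ < ‖x + 1‖ := by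
  have h : ‖x - 1‖ ^ 2 < ‖x + 1‖ ^ 2 := by
    rw [← Complex.normSq_eq_norm_sq, ← Complex.normSq_eq_norm_sq, Complex.normSq_apply,
      Complex.normSq_apply]
    simp only [Complex.sub_re, Complex.one_re, Complex.sub_im, Complex.one_im, Complex.add_re,
      Complex.add_im]
    nlinarith
  exact lt_of_pow_lt_pow_left₀ 2 (norm_nonneg _) h

lemma sol_of {A B s₁ s₂ : ℝ} (hC : Crit A B s₁ s₂) {P W : ℂ → ℂ}
    (hP : ∀ w ∈ UH, HasDerivAt P (W w * dPhi A B w) w) {m : ℝ} (hm : 0 < m)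
    (hW : ∀ w ∈ UH, m ≤ (W w).re) {T₁ T₂ : ℝ}
    (hT₁ : Tendsto (fun w => (P w).re) (𝓝[UH] (s₁ : ℂ)) (𝓝 T₁))
    (hT₂ : Tendsto (fun w => (P w).re) (𝓝[UH] (s₂ : ℂ)) (𝓝 T₂))
    {L L' : ℂ → ℂ} (hL : ∀ z ∈ Metric.ball (0 : ℂ) 1, HasDerivAt L (L' z) z)
    (hL' : ∀ z ∈ Metric.ball (0 : ℂ) 1, L' z ≠ 0)
    (hb : BijOn L (Metric.ball 0 1) UH) (hL0 : L 0 = I) {r : ℝ} (hr : 0 < r)
    (hpos : (W I + 1) * dPhi A B I * L' 0 = (r : ℂ)) :
    IsSolution (Om T₁ T₂) (fun z => (W (L z) - 1) / (W (L z) + 1)) (harm A B P I)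
      (fun z => harm A B P (L z)) := by
  have hPL : ∀ z ∈ Metric.ball (0 : ℂ) 1,
      HasDerivAt (fun z => P (L z)) (W (L z) * dPhi A B (L z) * L' z) z := fun z hz =>
    (hP _ (hb.mapsTo hz)).comp z (hL z hz)
  have hFL : ∀ z ∈ Metric.ball (0 : ℂ) 1,
      HasDerivAt (fun z => Phi A B (L z)) (dPhi A B (L z) * L' z) z := fun z hz =>
    (hasDerivAt_Phi A B (hb.mapsTo hz)).comp z (hL z hz)
  have hh : ∀ z ∈ Metric.ball (0 : ℂ) 1,
      HasDerivAt (fun z => (P (L z) + Phi A B (L z)) / 2)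
        ((W (L z) + 1) * dPhi A B (L z) * L' z / 2) z := by
    intro z hz
    have := ((hPL z hz).add (hFL z hz)).div_const 2
    convert! this using 1
    ring
  have hg : ∀ z ∈ Metric.ball (0 : ℂ) 1,
      HasDerivAt (fun z => (P (L z) - Phi A B (L z)) / 2)
        ((W (L z) - 1) * dPhi A B (L z) * L' z / 2) z := by
    intro z hz
    have := ((hPL z hz).sub (hFL z hz)).div_const 2
    convert! this using 1
    ring
  have h0 : (0 : ℂ) ∈ Metric.ball (0 : ℂ) 1 := Metric.mem_ball_self one_pos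
  have hd0 : deriv (fun z => (P (L z) + Phi A B (L z)) / 2) 0 = ((r / 2 : ℝ) : ℂ) := by
    rw [(hh 0 h0).deriv, hL0, hpos]
    push_cast
    ring
  refine ⟨fun z => (P (L z) + Phi A B (L z)) / 2, fun z => (P (L z) - Phi A B (L z)) / 2,
    fun z hz => (hh z hz).differentiableAt.differentiableWithinAt,
    fun z hz => (hg z hz).differentiableAt.differentiableWithinAt,
    ?_, ?_, ?_, ?_, ?_, ?_, ?_, ?_⟩
  · intro z _
    apply Complex.ext
    · simp only [harm_re, Complex.add_re, Complex.conj_re, Complex.div_re, Complex.sub_re]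
      norm_num
      ring
    · simp only [harm_im, Complex.add_im, Complex.conj_im, Complex.div_im, Complex.sub_im]
      norm_num
      ring
  · intro z hz
    have hre : 0 < (W (L z)).re := lt_of_lt_of_le hm (hW _ (hb.mapsTo hz))
    have hne : dPhi A B (L z) * L' z ≠ 0 :=
      mul_ne_zero (dPhi_ne_zero hC.hA (hb.mapsTo hz)) (hL' z hz)
    rw [(hh z hz).deriv, (hg z hz).deriv, mul_assoc, mul_assoc, norm_div, norm_div]
    have h1 := norm_sub_lt_norm_add hre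
    have h2 : 0 < ‖dPhi A B (L z) * L' z‖ := norm_pos_iff.mpr hne
    have h3 : 0 < ‖(2 : ℂ)‖ := by simp
    have key : ‖(W (L z) - 1) * (dPhi A B (L z) * L' z)‖ <
        ‖(W (L z) + 1) * (dPhi A B (L z) * L' z)‖ := by
      rw [norm_mul (W (L z) - 1), norm_mul (W (L z) + 1)]
      exact mul_lt_mul_of_pos_right h1 h2
    exact div_lt_div_of_pos_right key h3
  · intro z hz
    have hre : 0 < (W (L z)).re := lt_of_lt_of_le hm (hW _ (hb.mapsTo hz))
    have hne := add_one_ne hre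
    rw [(hh z hz).deriv, (hg z hz).deriv]
    simp only
    field_simp
  · intro z hz z' hz' h
    exact hb.injOn hz hz' (harm_injOn hC hP hm hW (hb.mapsTo hz) (hb.mapsTo hz') h)
  · have : (fun z => harm A B P (L z)) '' Metric.ball 0 1 = harm A B P '' (L '' Metric.ball 0 1) := by
      rw [image_image]
    rw [this, hb.image_eq]
    exact harm_image hC hP hm hW hT₁ hT₂
  · simp only [hL0]
  · rw [hd0, Complex.ofReal_re]
    linarith
  · rw [hd0, Complex.ofReal_im]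

/-- the Cayley map composed with a rotation -/
noncomputable def cay (c z : ℂ) : ℂ := I * (1 + c * z) / (1 - c * z)

lemma one_sub_ne {c z : ℂ} (hc : ‖c‖ = 1) (hz : z ∈ Metric.ball (0 : ℂ) 1) :
    1 - c * z ≠ 0 := by
  intro h
  have h1 : c * z = 1 := (sub_eq_zero.mp h).symm
  have h2 : ‖c * z‖ < 1 := by
    rw [norm_mul, hc, one_mul]
    simpa using hz
  rw [h1] at h2
  simp at h2

lemma hasDerivAt_cay {c z : ℂ} (hc : ‖c‖ = 1) (hz : z ∈ Metric.ball (0 : ℂ) 1) :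
    HasDerivAt (cay c) (2 * I * c / (1 - c * z) ^ 2) z := by
  have hne := one_sub_ne hc hz
  have h1 : HasDerivAt (fun z : ℂ => I * (1 + c * z)) (I * c) z := by
    have := (((hasDerivAt_id z).const_mul c).const_add 1).const_mul I
    simpa using this
  have h2 : HasDerivAt (fun z : ℂ => 1 - c * z) (-c) z := by
    have := ((hasDerivAt_id z).const_mul c).const_sub 1
    simpa using this
  have h3 := h1.div h2 hne
  convert! h3 using 1
  field_simp
  ring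

lemma cay_im {c z : ℂ} (hne : 1 - c * z ≠ 0) :
    (cay c z).im = (1 - ‖c * z‖ ^ 2) / Complex.normSq (1 - c * z) := by
  have h : Complex.normSq (1 - c * z) ≠ 0 := (Complex.normSq_pos.mpr hne).ne'
  unfold cay
  set u := c * z with hu
  rw [Complex.div_im, ← Complex.normSq_eq_norm_sq, Complex.normSq_apply u]
  simp only [Complex.mul_im, Complex.mul_re, Complex.I_re, Complex.I_im, Complex.add_re,
    Complex.add_im, Complex.one_re, Complex.one_im, Complex.sub_re, Complex.sub_im]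
  field_simp
  ring

lemma cay_bijOn {c : ℂ} (hc : ‖c‖ = 1) : BijOn (cay c) (Metric.ball 0 1) UH := by
  refine ⟨?_, ?_, ?_⟩
  · intro z hz
    have hne := one_sub_ne hc hz
    show 0 < (cay c z).im
    rw [cay_im hne]
    apply div_pos _ (Complex.normSq_pos.mpr hne)
    have h2 : ‖c * z‖ < 1 := by
      rw [norm_mul, hc, one_mul]
      simpa using hz
    have h3 := norm_nonneg (c * z)
    nlinarith
  · intro z hz z' hz' h
    have h1 := one_sub_ne hc hz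
    have h2 := one_sub_ne hc hz'
    have hc0 : c ≠ 0 := by
      rintro rfl
      simp at hc
    unfold cay at h
    rw [div_eq_div_iff h1 h2] at h
    have h3 : (2 * I * c) * (z - z') = 0 := by linear_combination h
    have h4 : (2 * I * c) ≠ 0 := mul_ne_zero (mul_ne_zero two_ne_zero I_ne_zero) hc0
    rcases mul_eq_zero.mp h3 with h5 | h5
    · exact absurd h5 h4
    · exact sub_eq_zero.mp h5
  · intro w hw
    have hw' : 0 < w.im := hw
    have hwI : w + I ≠ 0 := by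
      intro h
      have : (w + I).im = 0 := by rw [h]; simp
      simp at this
      linarith
    have hc0 : c ≠ 0 := by
      rintro rfl
      simp at hc
    set u : ℂ := (w - I) / (w + I) with hu
    have hun : ‖u‖ < 1 := by
      rw [hu, norm_div, div_lt_one (norm_pos_iff.mpr hwI)]
      have h : ‖w - I‖ ^ 2 < ‖w + I‖ ^ 2 := by
        rw [← Complex.normSq_eq_norm_sq, ← Complex.normSq_eq_norm_sq, Complex.normSq_apply,
          Complex.normSq_apply]
        simp only [Complex.sub_re, Complex.I_re, Complex.sub_im, Complex.I_im, Complex.add_re,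
          Complex.add_im]
        nlinarith
      exact lt_of_pow_lt_pow_left₀ 2 (norm_nonneg _) h
    refine ⟨u / c, ?_, ?_⟩
    · rw [Metric.mem_ball, dist_zero_right, norm_div, hc, div_one]
      exact hun
    · unfold cay
      have e : c * (u / c) = u := by field_simp
      rw [e, hu]
      have e1 : 1 - (w - I) / (w + I) = 2 * I / (w + I) := by
        field_simp
        ring
      have e2 : 1 + (w - I) / (w + I) = 2 * w / (w + I) := by
        field_simp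
        ring
      rw [e1, e2]
      have hI := I_ne_zero
      field_simp

lemma cay_zero (c : ℂ) : cay c 0 = I := by simp [cay]

lemma RR_I : RR I = I := by
  unfold RR
  have h : I + 60 ≠ (0 : ℂ) := by
    intro h
    have := congrArg Complex.im h
    simp at this
  rw [div_eq_iff h]
  ring_nf
  rw [Complex.I_sq]
  ring

lemma hasDerivAt_RR {w : ℂ} (hw : w ∈ UH) : HasDerivAt RR (3601 / (w + 60) ^ 2) w := by
  have hne := add60_ne hw
  have h1 : HasDerivAt (fun w : ℂ => 60 * w - 1) 60 w := by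
    have := ((hasDerivAt_id w).const_mul (60 : ℂ)).sub_const 1
    simpa using this
  have h2 : HasDerivAt (fun w : ℂ => w + 60) 1 w := by
    have := (hasDerivAt_id w).add_const (60 : ℂ)
    simpa using this
  have h3 := h1.div h2 hne
  convert! h3 using 1
  field_simp
  ring

lemma dPhi_I (A : ℝ) : dPhi A 23 I = ((47 / 2 : ℝ) : ℂ) - ((2 * A + 1 / 2 : ℝ) : ℂ) * I := by
  unfold dPhi
  have h : (I + 1)⁻¹ = (1 - I) / 2 := by
    have h1 : I + 1 ≠ (0 : ℂ) := by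
      intro h
      have := congrArg Complex.im h
      simp at this
    rw [inv_eq_one_div, div_eq_div_iff h1 two_ne_zero]
    ring_nf
    rw [Complex.I_sq]
    ring
  rw [h]
  push_cast
  ring

/-- the ratio of the derivatives at the base point is positive -/
lemma ratio_pos : ∃ ρ : ℝ, 0 < ρ ∧
    dPhi AG 23 I * (3601 / (I + 60) ^ 2) = (ρ : ℂ) * dPhi AF 23 I := by
  refine ⟨844013 / 846235, by norm_num, ?_⟩
  have h : (I + 60) ^ 2 = 3599 + 120 * I := by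
    ring_nf
    rw [Complex.I_sq]
    ring
  have hne : (3599 : ℂ) + 120 * I ≠ 0 := by
    intro h
    have := congrArg Complex.im h
    simp at this
  rw [dPhi_I, dPhi_I, h, mul_div_assoc', div_eq_iff hne]
  apply Complex.ext
  · simp [AF, AG]
    norm_num
  · simp [AF, AG]
    norm_num

/-- bound for the dilatation -/
lemma dil_bound {M : ℝ} {x : ℂ} (hx : 1 ≤ x.re) (hM : ‖x‖ ≤ M) :
    ‖(x - 1) / (x + 1)‖ ≤ Real.sqrt (1 - 4 / (M + 1) ^ 2) := by
  have hM0 : 0 ≤ M := (norm_nonneg x).trans hM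
  have hne : x + 1 ≠ 0 := add_one_ne (by linarith)
  have hpos : 0 < ‖x + 1‖ := norm_pos_iff.mpr hne
  apply Real.le_sqrt_of_sq_le
  rw [norm_div, div_pow]
  have h1 : ‖x - 1‖ ^ 2 = ‖x + 1‖ ^ 2 - 4 * x.re := by
    rw [← Complex.normSq_eq_norm_sq, ← Complex.normSq_eq_norm_sq, Complex.normSq_apply,
      Complex.normSq_apply]
    simp only [Complex.sub_re, Complex.one_re, Complex.sub_im, Complex.one_im, Complex.add_re,
      Complex.add_im]
    ring
  rw [h1, sub_div, div_self (pow_ne_zero 2 hpos.ne')]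
  have h2 : ‖x + 1‖ ≤ M + 1 := by
    have := norm_add_le x 1
    rw [norm_one] at this
    linarith
  have h3 : 4 / (M + 1) ^ 2 ≤ 4 * x.re / ‖x + 1‖ ^ 2 := by
    apply div_le_div₀ (by linarith) (by linarith) (by positivity)
    exact pow_le_pow_left₀ hpos.le h2 2
  linarith

lemma norm_kernel {τ w : ℂ} (hτ : τ.im < 0) (hw : w ∈ UH) :
    ‖I * (w - τ)⁻¹‖ ≤ (-τ.im)⁻¹ := by
  have hw' : 0 < w.im := hw
  rw [norm_mul, Complex.norm_I, one_mul, norm_inv]
  apply inv_anti₀ (by linarith)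
  have h1 := Complex.abs_im_le_norm (w - τ)
  rw [Complex.sub_im, abs_of_pos (by linarith)] at h1
  linarith

lemma norm_WF {a₁ a₂ : ℝ} (h₁ : 0 ≤ a₁) (h₂ : 0 ≤ a₂) {τ₁ τ₂ w : ℂ} (hτ₁ : τ₁.im < 0)
    (hτ₂ : τ₂.im < 0) (hw : w ∈ UH) :
    ‖WF a₁ a₂ τ₁ τ₂ w‖ ≤ 1 + a₁ * (-τ₁.im)⁻¹ + a₂ * (-τ₂.im)⁻¹ := by
  unfold WF
  calc ‖1 + (a₁ : ℂ) * (I * (w - τ₁)⁻¹) + (a₂ : ℂ) * (I * (w - τ₂)⁻¹)‖
      ≤ ‖1 + (a₁ : ℂ) * (I * (w - τ₁)⁻¹)‖ + ‖(a₂ : ℂ) * (I * (w - τ₂)⁻¹)‖ := norm_add_le _ _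
    _ ≤ ‖(1 : ℂ)‖ + ‖(a₁ : ℂ) * (I * (w - τ₁)⁻¹)‖ + ‖(a₂ : ℂ) * (I * (w - τ₂)⁻¹)‖ := by
        gcongr
        exact norm_add_le _ _
    _ = 1 + a₁ * ‖I * (w - τ₁)⁻¹‖ + a₂ * ‖I * (w - τ₂)⁻¹‖ := by
        rw [norm_one, norm_mul (a₁ : ℂ), norm_mul (a₂ : ℂ), Complex.norm_real,
          Complex.norm_real, Real.norm_eq_abs, Real.norm_eq_abs, abs_of_nonneg h₁,
          abs_of_nonneg h₂]
    _ ≤ _ := by
        gcongr
        · exact norm_kernel hτ₁ hw
        · exact norm_kernel hτ₂ hw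

lemma harm_I (A : ℝ) {P : ℂ → ℂ} (hP : (P I).re = 0) :
    harm A 23 P I = ((23 + Real.pi / 4 : ℝ) : ℂ) * I := by
  apply Complex.ext
  · rw [harm_re, hP, Complex.re_ofReal_mul, Complex.I_re, mul_zero]
  · rw [harm_im, Phi_I_im, Complex.im_ofReal_mul, Complex.I_im, mul_one]

lemma IsSolution.congr {Ω : Set ℂ} {ω ω' : ℂ → ℂ} {w₀ : ℂ} {f : ℂ → ℂ}
    (h : IsSolution Ω ω w₀ f) (he : ∀ z ∈ Metric.ball (0 : ℂ) 1, ω z = ω' z) :
    IsSolution Ω ω' w₀ f := by
  obtain ⟨h', g', h1, h2, h3, h4, h5, h6⟩ := h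
  exact ⟨h', g', h1, h2, h3, h4, fun z hz => by rw [← he z hz]; exact h5 z hz, h6⟩

lemma IsSolution.mem {Ω : Set ℂ} {ω : ℂ → ℂ} {w₀ : ℂ} {f : ℂ → ℂ}
    (h : IsSolution Ω ω w₀ f) : w₀ ∈ Ω := by
  obtain ⟨h', g', h1, h2, h3, h4, h5, h6, h7, h8, h9⟩ := h
  rw [← h7, ← h8]
  exact ⟨0, Metric.mem_ball_self one_pos, rfl⟩

lemma differentiableAt_WF {a₁ a₂ : ℝ} {τ₁ τ₂ w : ℂ} (hτ₁ : τ₁.im < 0)
    (hτ₂ : τ₂.im < 0) (hw : w ∈ UH) : DifferentiableAt ℂ (WF a₁ a₂ τ₁ τ₂) w := by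
  have hw' : 0 < w.im := hw
  have k : ∀ τ : ℂ, τ.im < 0 → DifferentiableAt ℂ (fun w : ℂ => (w - τ)⁻¹) w := by
    intro τ hτ
    have hne : w - τ ≠ 0 := by
      intro h
      have : (w - τ).im = 0 := by rw [h]; simp
      rw [Complex.sub_im] at this
      linarith
    exact DifferentiableAt.inv (by fun_prop) hne
  have k1 := k τ₁ hτ₁
  have k2 := k τ₂ hτ₂
  unfold WF
  exact ((differentiableAt_const _).add ((k1.const_mul I).const_mul (a₁ : ℂ))).add
    ((k2.const_mul I).const_mul (a₂ : ℂ))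

lemma im_test_F : 0 < (Phi AF 23 (60 * I)).im := by
  unfold Phi
  have e : -(AF : ℂ) * (60 * I) ^ 2 = ((3600 * AF : ℝ) : ℂ) := by
    rw [mul_pow, Complex.I_sq]
    push_cast
    ring
  have e2 : ((23 : ℝ) : ℂ) * (60 * I) = ((1380 : ℝ) : ℂ) * I := by
    push_cast
    ring
  rw [e, e2, Complex.add_im, Complex.add_im, Complex.ofReal_im, Complex.im_ofReal_mul,
    Complex.I_im, Complex.log_im]
  have : 0 ≤ Complex.arg (60 * I + 1) := by
    rw [Complex.arg_nonneg_iff]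
    simp
  linarith

lemma im_test_G : (Phi AG 23 (RR (60 * I))).im < 0 := by
  have h : RR (60 * I) = ((3599 / 120 : ℝ) : ℂ) + ((3601 / 120 : ℝ) : ℂ) * I := by
    unfold RR
    have hne : 60 * I + 60 ≠ (0 : ℂ) := by
      intro h
      have := congrArg Complex.im h
      simp at this
    rw [div_eq_iff hne]
    apply Complex.ext
    · simp
      norm_num
    · simp
      norm_num
  rw [h]
  unfold Phi
  have hlog : (Complex.log (((3599 / 120 : ℝ) : ℂ) + ((3601 / 120 : ℝ) : ℂ) * I + 1)).im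
      ≤ Real.pi := by
    rw [Complex.log_im]
    exact Complex.arg_le_pi _
  have e : (-(AG : ℂ) * (((3599 / 120 : ℝ) : ℂ) + ((3601 / 120 : ℝ) : ℂ) * I) ^ 2 +
      ((23 : ℝ) : ℂ) * (((3599 / 120 : ℝ) : ℂ) + ((3601 / 120 : ℝ) : ℂ) * I)).im =
      -AG * (2 * (3599 / 120) * (3601 / 120)) + 23 * (3601 / 120) := by
    rw [pow_two]
    simp
    left
    ring
  rw [Complex.add_im, e]
  have hpi := Real.pi_lt_four
  unfold AG
  norm_num at hlog ⊢
  linarith

/-- **Main theorem**: the normalised harmonic mapping with prescribed dilatation is not unique. -/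
theorem result : ∃ (Ω : Set ℂ) (w₀ : ℂ) (ω f₁ f₂ : ℂ → ℂ),
    IsOpen Ω ∧ IsSimplyConnected Ω ∧ Ω ≠ Set.univ ∧ w₀ ∈ Ω ∧
    DifferentiableOn ℂ ω (Metric.ball 0 1) ∧
    (∃ k : ℝ, k < 1 ∧ ∀ z ∈ Metric.ball (0 : ℂ) 1, ‖ω z‖ ≤ k) ∧
    IsSolution Ω ω w₀ f₁ ∧ IsSolution Ω ω w₀ f₂ ∧
    ∃ z ∈ Metric.ball (0 : ℂ) 1, f₁ z ≠ f₂ z := by
  obtain ⟨s₁, s₂, hC, h0, h42⟩ := exists_tips
  obtain ⟨ε, hε, a₁, a₂, ha₁, ha₂, q1, q2⟩ := exists_coeffs hC h0 h42
  set τ₁ := pole (-(1830 / 1831)) ε with hτ₁d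
  set τ₂ := pole (1501 / 35) ε with hτ₂d
  have hτ₁ : τ₁.im < 0 := by rw [hτ₁d, pole_im]; linarith
  have hτ₂ : τ₂.im < 0 := by rw [hτ₂d, pole_im]; linarith
  have hs1 : s₁ ≠ -1 := by linarith [hC.h1]
  have hs2 : s₂ ≠ -1 := by
    have := hC.h2
    intro h
    linarith
  -- the data on the F side
  set W : ℂ → ℂ := WF a₁ a₂ τ₁ τ₂ with hWd
  set pF : ℝ := (PF a₁ a₂ τ₁ τ₂ I).re with hpF
  set pG : ℝ := (PG a₁ a₂ τ₁ τ₂ I).re with hpG
  set P : ℂ → ℂ := fun w => PF a₁ a₂ τ₁ τ₂ w - (pF : ℂ) with hPd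
  set Q : ℂ → ℂ := fun w => PG a₁ a₂ τ₁ τ₂ w - (pG : ℂ) with hQd
  have hP : ∀ w ∈ UH, HasDerivAt P (W w * dPhi AF 23 w) w := fun w hw =>
    (hasDerivAt_PF a₁ a₂ hτ₁ hτ₂ hw).sub_const _
  have hQ : ∀ w ∈ UH, HasDerivAt Q (WG a₁ a₂ τ₁ τ₂ w * dPhi AG 23 w) w := fun w hw =>
    (hasDerivAt_PG a₁ a₂ hτ₁ hτ₂ hw).sub_const _
  have hW : ∀ w ∈ UH, 1 ≤ (W w).re := fun w hw => WF_re ha₁.le ha₂.le hτ₁.le hτ₂.le hw
  have hWG : ∀ w ∈ UH, 1 ≤ (WG a₁ a₂ τ₁ τ₂ w).re := fun w hw =>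
    WG_re ha₁.le ha₂.le hτ₁ hτ₂ hw
  set T₁ : ℝ := (PF a₁ a₂ τ₁ τ₂ (s₁ : ℂ)).re - pF with hT₁
  set T₂ : ℝ := (PF a₁ a₂ τ₁ τ₂ (s₂ : ℂ)).re - pF with hT₂
  have limP : ∀ s : ℝ, s ≠ -1 → Tendsto (fun w => (P w).re) (𝓝[UH] (s : ℂ))
      (𝓝 ((PF a₁ a₂ τ₁ τ₂ (s : ℂ)).re - pF)) := by
    intro s hs
    have h1 := (Complex.continuous_re.tendsto _).comp (tendsto_PF_tip a₁ a₂ hτ₁ hτ₂ hs)
    have h2 := h1.sub_const pF
    simpa [hPd, Function.comp_def] using h2
  have limQ : ∀ s : ℝ, s ≠ -1 → Tendsto (fun w => (Q w).re) (𝓝[UH] (s : ℂ))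
      (𝓝 ((PG a₁ a₂ τ₁ τ₂ (s : ℂ)).re - pG)) := by
    intro s hs
    have h1 := (Complex.continuous_re.tendsto _).comp (tendsto_PG_tip a₁ a₂ hτ₁ hτ₂ hs)
    have h2 := h1.sub_const pG
    simpa [hQd, Function.comp_def] using h2
  have e1 : (PG a₁ a₂ τ₁ τ₂ ((-(25 / 24) : ℝ) : ℂ)).re - pG = T₁ := by
    have := tip_diff a₁ a₂ τ₁ τ₂ s₁ (-(25 / 24))
    rw [q1] at this
    linarith
  have e2 : (PG a₁ a₂ τ₁ τ₂ ((24 : ℝ) : ℂ)).re - pG = T₂ := by
    have := tip_diff a₁ a₂ τ₁ τ₂ s₂ 24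
    rw [q2] at this
    linarith
  have limQ1 := limQ (-(25 / 24)) (by norm_num)
  have limQ2 := limQ 24 (by norm_num)
  rw [e1] at limQ1
  rw [e2] at limQ2
  -- the rotation
  have hII : (I : ℂ) ∈ UH := by simp [UH]
  set Z : ℂ := (W I + 1) * dPhi AF 23 I * (2 * I) with hZ
  have hZne : Z ≠ 0 := by
    rw [hZ]
    refine mul_ne_zero (mul_ne_zero (add_one_ne ?_) (dPhi_ne_zero hC.hA hII))
      (mul_ne_zero two_ne_zero I_ne_zero)
    linarith [hW I hII]
  have hZpos : 0 < ‖Z‖ := norm_pos_iff.mpr hZne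
  set c : ℂ := (starRingEnd ℂ) Z / (‖Z‖ : ℂ) with hcd
  have hc : ‖c‖ = 1 := by
    rw [hcd, norm_div, Complex.norm_real, norm_norm, RCLike.norm_conj, div_self hZpos.ne']
  have hZc : Z * c = (‖Z‖ : ℂ) := by
    rw [hcd, mul_div_assoc', Complex.mul_conj, Complex.normSq_eq_norm_sq]
    have : (‖Z‖ : ℂ) ≠ 0 := by exact_mod_cast hZpos.ne'
    push_cast
    field_simp
  obtain ⟨ρ, hρ, hρe⟩ := ratio_pos
  have hbF := cay_bijOn hc
  have hdF : ∀ z ∈ Metric.ball (0 : ℂ) 1, HasDerivAt (cay c) (2 * I * c / (1 - c * z) ^ 2) z :=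
    fun z hz => hasDerivAt_cay hc hz
  have hc0 : c ≠ 0 := by
    intro h
    rw [h] at hc
    simp at hc
  have hneF : ∀ z ∈ Metric.ball (0 : ℂ) 1, 2 * I * c / (1 - c * z) ^ 2 ≠ 0 := fun z hz =>
    div_ne_zero (mul_ne_zero (mul_ne_zero two_ne_zero I_ne_zero) hc0)
      (pow_ne_zero 2 (one_sub_ne hc hz))
  have solF := sol_of hC hP one_pos hW (limP s₁ hs1) (limP s₂ hs2) hdF hneF hbF (cay_zero c)
    (r := ‖Z‖) hZpos (by
      rw [← hZc, hZ]
      simp
      ring)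
  -- the second map
  have hbG : BijOn (fun z => RR (cay c z)) (Metric.ball 0 1) UH := RR_bijOn.comp hbF
  have hdG : ∀ z ∈ Metric.ball (0 : ℂ) 1, HasDerivAt (fun z => RR (cay c z))
      (3601 / (cay c z + 60) ^ 2 * (2 * I * c / (1 - c * z) ^ 2)) z := fun z hz =>
    (hasDerivAt_RR (hbF.mapsTo hz)).comp z (hdF z hz)
  have hneG : ∀ z ∈ Metric.ball (0 : ℂ) 1,
      3601 / (cay c z + 60) ^ 2 * (2 * I * c / (1 - c * z) ^ 2) ≠ 0 := fun z hz =>
    mul_ne_zero (div_ne_zero (by norm_num) (pow_ne_zero 2 (add60_ne (hbF.mapsTo hz))))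
      (hneF z hz)
  have hG0 : RR (cay c 0) = I := by rw [cay_zero, RR_I]
  have hWGI : WG a₁ a₂ τ₁ τ₂ I = W I := by
    have := WG_RR (a₁ := a₁) (a₂ := a₂) hτ₁ hτ₂ hII
    rwa [RR_I] at this
  have solG := sol_of crit_G hQ one_pos hWG limQ1 limQ2 hdG hneG hbG hG0
    (r := ρ * ‖Z‖) (mul_pos hρ hZpos) (by
      rw [hWGI, cay_zero]
      have : (W I + 1) * dPhi AG 23 I * (3601 / (I + 60) ^ 2 * (2 * I * c / (1 - c * 0) ^ 2))
          = (W I + 1) * (dPhi AG 23 I * (3601 / (I + 60) ^ 2)) * (2 * I) * c := by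
        simp
        ring
      rw [this, hρe]
      push_cast
      rw [← hZc, hZ]
      ring)
  have hPI : (P I).re = 0 := by simp [hPd, hpF]
  have hQI : (Q I).re = 0 := by simp [hQd, hpG]
  rw [harm_I AF hPI] at solF
  rw [harm_I AG hQI] at solG
  -- equal dilatations on the disc
  have solG' := solG.congr (ω' := fun z => (W (cay c z) - 1) / (W (cay c z) + 1)) (by
    intro z hz
    rw [WG_RR hτ₁ hτ₂ (hbF.mapsTo hz)])
  refine ⟨Om T₁ T₂, _, _, _, _, isOpen_Om _ _, isSimplyConnected_Om _ _, Om_ne_univ _ _,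
    solF.mem, ?_, ?_, solF, solG', ?_⟩
  · intro z hz
    have hd : DifferentiableAt ℂ (fun z => W (cay c z)) z :=
      (differentiableAt_WF hτ₁ hτ₂ (hbF.mapsTo hz)).comp z (hdF z hz).differentiableAt
    have hne : W (cay c z) + 1 ≠ 0 := add_one_ne (by linarith [hW _ (hbF.mapsTo hz)])
    exact ((hd.sub_const 1).div (hd.add_const 1) hne).differentiableWithinAt
  · set M : ℝ := 1 + a₁ * (-τ₁.im)⁻¹ + a₂ * (-τ₂.im)⁻¹ with hM
    refine ⟨Real.sqrt (1 - 4 / (M + 1) ^ 2), ?_, ?_⟩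
    · have hM0 : 0 ≤ M := by
        have : 0 ≤ (-τ₁.im)⁻¹ := inv_nonneg.mpr (by linarith)
        have : 0 ≤ (-τ₂.im)⁻¹ := inv_nonneg.mpr (by linarith)
        positivity
      rw [Real.sqrt_lt' one_pos]
      have : 0 < 4 / (M + 1) ^ 2 := by positivity
      linarith
    · intro z hz
      exact dil_bound (hW _ (hbF.mapsTo hz)) (norm_WF ha₁.le ha₂.le hτ₁ hτ₂ (hbF.mapsTo hz))
  · have h60 : (60 * I : ℂ) ∈ UH := by simp [UH]
    obtain ⟨z, hz, hz60⟩ := hbF.surjOn h60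
    refine ⟨z, hz, ?_⟩
    intro heq
    have him := congrArg Complex.im heq
    simp only [harm_im, hz60] at him
    linarith [im_test_F, im_test_G]

end Pool.Agent.Results.MP_35dab7_an.NonUniqueness
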